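import Mathlib

/-!
Gauss words of reduced prime alternating knot diagrams on the sphere, and flypes.
-/

namespace Pool.Agent.MP_b13154_gt

/-- `w` is the Gauss word (the crossings in the order met along the knot) of a reduced prime knot
projection with `n` crossings on the sphere.  A pass `(a, i)` enters crossing `a` through slot `i`
and leaves through slot `i + 2` (slots in counterclockwise order); `k (a, j)` names the face at the
corner between slots `j` and `j + 1`; there are at least `n + 2` faces (Euler). -/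
def IsDiagram (n : ℕ) (w : List ℕ) : Prop :=
  w.length = 2 * n ∧ (∀ a ∈ w, w.count a = 2) ∧
  (∀ P U S : List ℕ, w = P ++ U ++ S → U ≠ [] → P ++ S ≠ [] → ∃ a ∈ U, a ∈ P ++ S) ∧
  ∃ (t : List (ℕ × Fin 4)) (k : ℕ × Fin 4 → ℕ),
    t.map Prod.fst = w ∧ (t.map fun x => (x.1, x.2.val % 2)).Nodup ∧
    List.IsChain (fun x y => k (x.1, x.2 + 2) = k (y.1, y.2 + 3) ∧ k (x.1, x.2 + 1) = k (y.1, y.2))
      (t ++ t.take 1) ∧
    n + 2 ≤ ((w.toFinset ×ˢ Finset.univ).image k).card

/-- Change of base point, of direction, of names, and the three kinds of flype of a crossing `c`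
across a tangle made of the two arcs `A` and `B`. -/
inductive Move : List ℕ → List ℕ → Prop
  | rot (a : ℕ) (w : List ℕ) : Move (a :: w) (w ++ [a])
  | rev (w : List ℕ) : Move w w.reverse
  | ren (σ : Equiv.Perm ℕ) (w : List ℕ) : Move w (w.map σ)
  | par (c : ℕ) (A X B Y : List ℕ) (h : ∀ a ∈ A ++ B, a ∉ X ++ Y) :
      Move (c :: A ++ X ++ c :: B ++ Y) (A ++ c :: X ++ B ++ c :: Y)
  | anti (c : ℕ) (A X B Y : List ℕ) (h : ∀ a ∈ A ++ B, a ∉ X ++ Y) :
      Move (c :: A ++ X ++ B ++ c :: Y) (A ++ c :: X ++ c :: B ++ Y)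
  | turn (c : ℕ) (A X B Y : List ℕ) (h : ∀ a ∈ A ++ B, a ∉ X ++ Y) :
      Move (c :: A ++ c :: X ++ B ++ Y) (A ++ X ++ c :: B ++ c :: Y)

/-- The flype classes of reduced prime alternating diagrams with `n` crossings, up to mirror image. -/
def classes (n : ℕ) : Set (Quot Move) := Quot.mk Move '' {w | IsDiagram n w}

end Pool.Agent.MP_b13154_gt
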